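import Mathlib

/-!
# A residually finite and residually soluble group which is not residually finite-soluble

Let `R = ℤ[x_1, x_2, …]`, let `I` be the kernel of the homomorphism onto `ℚ` with `x_m ↦ 1 / m` and
let `Γ` be the subgroup of `SL_3(R)` generated by the elementary matrices `e_ij(a)` with `a ∈ I`.
As `⋂ I ^ n = 0` the group `Γ` is residually nilpotent, and it is residually finite as `R` is.
As `I / I ^ 2` is divisible, `Γ` has no nontrivial finite soluble quotient.
-/

namespace Pool.Agent.Results.MP_92b5af_al.NotResiduallyFiniteSoluble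

open Matrix

/-- `Γ` is residually finite. -/
def ResiduallyFinite (Γ : Type) [Group Γ] : Prop :=
  ∀ g : Γ, g ≠ 1 → ∃ N : Subgroup Γ, ∃ _ : N.Normal, g ∉ N ∧ Finite (Γ ⧸ N)

/-- `Γ` is residually soluble. -/
def ResiduallySoluble (Γ : Type) [Group Γ] : Prop :=
  ∀ g : Γ, g ≠ 1 → ∃ N : Subgroup Γ, ∃ _ : N.Normal, g ∉ N ∧ Group.IsSolvable (Γ ⧸ N)

/-- `Γ` is residually finite-soluble. -/
def ResiduallyFiniteSoluble (Γ : Type) [Group Γ] : Prop :=
  ∀ g : Γ, g ≠ 1 → ∃ N : Subgroup Γ, ∃ _ : N.Normal, g ∉ N ∧ Finite (Γ ⧸ N) ∧ Group.IsSolvable (Γ ⧸ N)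

section General

variable {R : Type} [CommRing R] (I : Ideal R)

/-- The matrix of an element of the special linear group. -/
def mt (g : SpecialLinearGroup (Fin 3) R) : Matrix (Fin 3) (Fin 3) R := g.1

theorem mt_mul (g h : SpecialLinearGroup (Fin 3) R) : mt (g * h) = mt g * mt h := rfl

theorem mt_one : mt (1 : SpecialLinearGroup (Fin 3) R) = 1 := rfl

theorem mt_mul_inv (g : SpecialLinearGroup (Fin 3) R) : mt g * mt g⁻¹ = 1 := by
  rw [← mt_mul, mul_inv_cancel, mt_one]

theorem mt_inj {g h : SpecialLinearGroup (Fin 3) R} (hgh : mt g = mt h) : g = h :=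
  Subtype.ext hgh

/-- The elementary matrices. -/
def e (i j : Fin 3) (h : i ≠ j) (a : R) : SpecialLinearGroup (Fin 3) R :=
  ⟨Matrix.transvection i j a, Matrix.det_transvection_of_ne i j h a⟩

/-- The group generated by the elementary matrices with entries in `I`. -/
def Gam : Subgroup (SpecialLinearGroup (Fin 3) R) :=
  Subgroup.closure {g | ∃ (i j : Fin 3) (h : i ≠ j) (a : R), a ∈ I ∧ g = e i j h a}

theorem e_mem {i j : Fin 3} (h : i ≠ j) {a : R} (ha : a ∈ I) : e i j h a ∈ Gam I :=
  Subgroup.subset_closure ⟨i, j, h, a, ha, rfl⟩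

theorem e_add {i j : Fin 3} (h : i ≠ j) (a b : R) : e i j h (a + b) = e i j h a * e i j h b := by
  apply mt_inj
  change transvection i j (a + b) = transvection i j a * transvection i j b
  rw [Matrix.transvection_mul_transvection_same _ _ h]

theorem e_comm {i j k : Fin 3} (hij : i ≠ j) (hik : i ≠ k) (hkj : k ≠ j) (a b : R) :
    e i k hik a * e k j hkj b = e i j hij (a * b) * e k j hkj b * e i k hik a := by
  apply mt_inj
  change transvection i k a * transvection k j b =
    transvection i j (a * b) * transvection k j b * transvection i k a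
  simp only [transvection, mul_add, add_mul, mul_one, one_mul, Matrix.single_mul_single_same,
    Matrix.single_mul_single_of_ne, hij.symm, hkj.symm, ne_eq, not_false_eq_true, add_zero]
  abel

/-- The entries of `M` lie in `J`. -/
def Ent (J : Ideal R) (M : Matrix (Fin 3) (Fin 3) R) : Prop := ∀ i j, M i j ∈ J

theorem Ent.mul {J K : Ideal R} {M N : Matrix (Fin 3) (Fin 3) R} (hM : Ent J M) (hN : Ent K N) :
    Ent (J * K) (M * N) := by
  intro i j
  rw [Matrix.mul_apply]
  exact Ideal.sum_mem _ fun k _ => Ideal.mul_mem_mul (hM i k) (hN k j)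

theorem Ent.mul_right {J : Ideal R} {M : Matrix (Fin 3) (Fin 3) R} (hM : Ent J M)
    (N : Matrix (Fin 3) (Fin 3) R) : Ent J (M * N) := by
  intro i j
  rw [Matrix.mul_apply]
  exact Ideal.sum_mem _ fun k _ => Ideal.mul_mem_right _ _ (hM i k)

theorem Ent.add {J : Ideal R} {M N : Matrix (Fin 3) (Fin 3) R} (hM : Ent J M) (hN : Ent J N) :
    Ent J (M + N) := fun i j => Ideal.add_mem _ (hM i j) (hN i j)

theorem Ent.sub {J : Ideal R} {M N : Matrix (Fin 3) (Fin 3) R} (hM : Ent J M) (hN : Ent J N) :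
    Ent J (M - N) := fun i j => Ideal.sub_mem _ (hM i j) (hN i j)

theorem Ent.mul_left {J : Ideal R} {M : Matrix (Fin 3) (Fin 3) R} (hM : Ent J M)
    (N : Matrix (Fin 3) (Fin 3) R) : Ent J (N * M) := by
  intro i j
  rw [Matrix.mul_apply]
  exact Ideal.sum_mem _ fun k _ => Ideal.mul_mem_left _ _ (hM k j)

/-- The congruence subgroup. -/
def Cong (J : Ideal R) : Subgroup (SpecialLinearGroup (Fin 3) R) where
  carrier := {g | Ent J (mt g - 1)}
  one_mem' := by
    intro i j
    rw [mt_one, sub_self]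
    exact J.zero_mem
  mul_mem' := by
    intro a b ha hb
    have : mt (a * b) - 1 = (mt a - 1) * mt b + (mt b - 1) := by
      rw [mt_mul, sub_mul, one_mul, sub_add_sub_cancel]
    change Ent J (mt (a * b) - 1)
    rw [this]
    exact (Ent.mul_right ha _).add hb
  inv_mem' := by
    intro a ha
    have : mt a⁻¹ - 1 = 0 - (mt a - 1) * mt a⁻¹ := by
      rw [sub_mul, mt_mul_inv, one_mul, zero_sub, neg_sub]
    change Ent J (mt a⁻¹ - 1)
    rw [this]
    exact Ent.sub (fun i j => by simp) (Ent.mul_right ha _)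

theorem mem_Cong {J : Ideal R} {g : SpecialLinearGroup (Fin 3) R} :
    g ∈ Cong J ↔ Ent J (mt g - 1) := Iff.rfl

instance (J : Ideal R) : (Cong J).Normal := by
  constructor
  intro n hn g
  rw [mem_Cong] at hn ⊢
  have : mt (g * n * g⁻¹) - 1 = mt g * (mt n - 1) * mt g⁻¹ := by
    rw [mt_mul, mt_mul, mul_sub, sub_mul, mul_one, mt_mul_inv]
  rw [this]
  exact Ent.mul_right (Ent.mul_left hn _) _

theorem Cong_mono {J K : Ideal R} (h : J ≤ K) : Cong J ≤ Cong K :=
  fun _ hg i j => h (hg i j)

open scoped commutatorElement in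
theorem Cong_comm (J K : Ideal R) : ⁅Cong J, Cong K⁆ ≤ Cong (J * K) := by
  rw [Subgroup.commutator_le]
  intro g hg h hh
  rw [mem_Cong] at hg hh ⊢
  have e1 : (⁅g, h⁆ : SpecialLinearGroup (Fin 3) R) = g * h * (h * g)⁻¹ := by
    rw [commutatorElement_def, _root_.mul_inv_rev]
    group
  have e3 : mt (⁅g, h⁆ : SpecialLinearGroup (Fin 3) R) - 1 =
      ((mt g - 1) * (mt h - 1) - (mt h - 1) * (mt g - 1)) * mt (h * g)⁻¹ := by
    have e4 : (mt g - 1) * (mt h - 1) - (mt h - 1) * (mt g - 1) = mt (g * h) - mt (h * g) := by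
      rw [mt_mul, mt_mul]
      noncomm_ring
    rw [e4, sub_mul, mt_mul_inv, e1, mt_mul (g * h)]
  rw [e3]
  refine Ent.mul_right (Ent.sub (Ent.mul hg hh) ?_) _
  have := Ent.mul hh hg
  rwa [mul_comm] at this

theorem Gam_le_Cong : Gam I ≤ Cong I := by
  unfold Gam
  rw [Subgroup.closure_le]
  rintro _ ⟨i, j, h, a, ha, rfl⟩
  change Ent I (transvection i j a - 1)
  intro k l
  rw [transvection, add_sub_cancel_left, Matrix.single_apply]
  split_ifs
  · exact ha
  · exact zero_mem _

theorem derived_le (n : ℕ) :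
    (derivedSeries (Gam I) n).map (Gam I).subtype ≤ Cong (I ^ (n + 1)) := by
  induction n with
  | zero =>
    rintro _ ⟨x, _, rfl⟩
    rw [zero_add, pow_one]
    exact Gam_le_Cong I x.2
  | succ n ih =>
    rw [derivedSeries_succ, Subgroup.map_commutator]
    refine le_trans (Subgroup.commutator_mono ih ih) (le_trans (Cong_comm _ _) (Cong_mono ?_))
    rw [← pow_add]
    exact Ideal.pow_le_pow_right (by omega)

theorem residuallySoluble (h : ∀ a : R, (∀ n, a ∈ I ^ n) → a = 0) : ResiduallySoluble (Gam I) := by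
  intro g hg
  have h1 : ∃ n, g.1 ∉ Cong (I ^ (n + 1)) := by
    by_contra hn
    push Not at hn
    apply hg
    apply Subtype.ext
    apply mt_inj
    have : mt g.1 - 1 = 0 := by
      ext i j
      apply h
      intro n
      exact Ideal.pow_le_pow_right (by omega) (hn n i j)
    exact sub_eq_zero.1 this
  obtain ⟨n, hn⟩ := h1
  refine ⟨(Cong (I ^ (n + 1))).comap (Gam I).subtype, inferInstance, hn, ?_⟩
  refine ⟨⟨n, ?_⟩⟩
  have := map_derivedSeries_eq (QuotientGroup.mk'_surjective
    ((Cong (I ^ (n + 1))).comap (Gam I).subtype)) n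
  rw [← this, eq_bot_iff, Subgroup.map_le_iff_le_comap]
  intro x hx
  rw [Subgroup.mem_comap, Subgroup.mem_bot, QuotientGroup.mk'_apply, QuotientGroup.eq_one_iff]
  exact derived_le I n ⟨x, hx, rfl⟩

theorem residuallyFinite (h : ∀ a : R, a ≠ 0 → ∃ (F : Type) (_ : CommRing F) (_ : Finite F)
    (f : R →+* F), f a ≠ 0) : ResiduallyFinite (Gam I) := by
  intro g hg
  have h1 : ∃ i j, (mt g.1 - 1) i j ≠ 0 := by
    by_contra hn
    push Not at hn
    apply hg
    apply Subtype.ext
    apply mt_inj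
    have : mt g.1 - 1 = 0 := by
      ext i j
      exact hn i j
    exact sub_eq_zero.1 this
  obtain ⟨i, j, hij⟩ := h1
  obtain ⟨F, _, _, f, hf⟩ := h _ hij
  let Φ : Gam I →* SpecialLinearGroup (Fin 3) F := (SpecialLinearGroup.map f).comp (Gam I).subtype
  have hfin : Finite (SpecialLinearGroup (Fin 3) F) := Subtype.finite
  refine ⟨Φ.ker, inferInstance, ?_, Finite.of_injective _ (QuotientGroup.kerLift_injective Φ)⟩
  intro hk
  rw [MonoidHom.mem_ker] at hk
  apply hf
  have h2 : mt (Φ g) i j = mt (1 : SpecialLinearGroup (Fin 3) F) i j := by rw [hk]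
  have h3 : mt (Φ g) i j = f (mt g.1 i j) := rfl
  rw [h3, mt_one] at h2
  rw [Matrix.sub_apply, map_sub, h2, sub_eq_zero, Matrix.one_apply, Matrix.one_apply]
  split_ifs <;> simp

theorem no_abelian {A : Type} [CommGroup A] [Finite A] (f : Gam I →* A)
    (h : ∀ m : ℕ, 0 < m → ∃ r : R, 1 - m * r ∈ I) (g : Gam I) : f g = 1 := by
  -- products
  have h1 : ∀ (i j : Fin 3) (hij : i ≠ j) (a b : R) (ha : a ∈ I) (hb : b ∈ I),
      f ⟨e i j hij (a * b), e_mem I hij (I.mul_mem_right _ ha)⟩ = 1 := by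
    intro i j hij a b ha hb
    obtain ⟨k, hik, hkj⟩ : ∃ k : Fin 3, i ≠ k ∧ k ≠ j := by
      revert i j; decide
    have h2 : (⟨e i k hik a, e_mem I hik ha⟩ : Gam I) * ⟨e k j hkj b, e_mem I hkj hb⟩ =
        ⟨e i j hij (a * b), e_mem I hij (I.mul_mem_right _ ha)⟩ * ⟨e k j hkj b, e_mem I hkj hb⟩ *
          ⟨e i k hik a, e_mem I hik ha⟩ := Subtype.ext (e_comm hij hik hkj a b)
    have h3 := congrArg f h2
    rw [map_mul, map_mul, map_mul, mul_comm (f ⟨e i k hik a, _⟩), mul_assoc] at h3
    exact mul_eq_right.1 h3.symm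
  have h4 : ∀ (i j : Fin 3) (hij : i ≠ j) (a : R) (ha : a ∈ I) (n : ℕ),
      (⟨e i j hij (n * a), e_mem I hij (I.mul_mem_left _ ha)⟩ : Gam I) =
        ⟨e i j hij a, e_mem I hij ha⟩ ^ n := by
    intro i j hij a ha n
    induction n with
    | zero =>
      apply Subtype.ext
      apply mt_inj
      change transvection i j _ = 1
      simp
    | succ n ih =>
      rw [pow_succ, ← ih]
      apply Subtype.ext
      change e i j hij _ = e i j hij _ * e i j hij _
      rw [← e_add]
      congr 1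
      push_cast
      ring
  have h5 : ∀ (i j : Fin 3) (hij : i ≠ j) (a : R) (ha : a ∈ I),
      f ⟨e i j hij a, e_mem I hij ha⟩ = 1 := by
    intro i j hij a ha
    obtain ⟨r, hr⟩ := h (Nat.card A) Nat.card_pos
    have h6 : (⟨e i j hij a, e_mem I hij ha⟩ : Gam I) =
        ⟨e i j hij (((Nat.card A : ℕ) : R) * (r * a)),
          e_mem I hij (I.mul_mem_left _ (I.mul_mem_left _ ha))⟩ *
        ⟨e i j hij (a * (1 - (Nat.card A : ℕ) * r)), e_mem I hij (I.mul_mem_right _ ha)⟩ := by
      apply Subtype.ext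
      change e i j hij _ = e i j hij _ * e i j hij _
      rw [← e_add]
      congr 1
      ring
    rw [h6, map_mul, h1 i j hij a _ ha hr, h4 i j hij _ (I.mul_mem_left _ ha), map_pow,
      pow_card_eq_one', one_mul]
  obtain ⟨g, hg⟩ := g
  have h7 : g ∈ Gam I := hg
  unfold Gam at h7
  induction h7 using Subgroup.closure_induction with
  | mem x hx =>
    obtain ⟨i, j, hij, a, ha, rfl⟩ := hx
    exact h5 i j hij a ha
  | one => exact map_one f
  | mul x y hx hy ihx ihy =>
    have hx' : x ∈ Gam I := hx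
    have hy' : y ∈ Gam I := hy
    have : (⟨x * y, hg⟩ : Gam I) = ⟨x, hx'⟩ * ⟨y, hy'⟩ := rfl
    rw [this, map_mul, ihx, ihy, one_mul]
  | inv x hx ih =>
    have hx' : x ∈ Gam I := hx
    have : (⟨x⁻¹, hg⟩ : Gam I) = ⟨x, hx'⟩⁻¹ := rfl
    rw [this, map_inv, ih, inv_one]

theorem no_soluble (h : ∀ m : ℕ, 0 < m → ∃ r : R, 1 - m * r ∈ I) (N : Subgroup (Gam I))
    [N.Normal] [Finite (Gam I ⧸ N)] [Group.IsSolvable (Gam I ⧸ N)] : N = ⊤ := by
  by_contra hN
  have hnt : Nontrivial (Gam I ⧸ N) := by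
    rw [← not_subsingleton_iff_nontrivial]
    intro hs
    exact hN (QuotientGroup.subsingleton_iff.1 hs)
  have h1 := Group.IsSolvable.commutator_lt_top_of_nontrivial (Gam I ⧸ N)
  have : Finite (Abelianization (Gam I ⧸ N)) :=
    inferInstanceAs (Finite ((Gam I ⧸ N) ⧸ commutator (Gam I ⧸ N)))
  have h2 := no_abelian I (Abelianization.of.comp (QuotientGroup.mk' N)) h
  apply h1.ne
  rw [eq_top_iff]
  intro x _
  obtain ⟨g, rfl⟩ := QuotientGroup.mk'_surjective N x
  rw [← Abelianization.ker_of, MonoidHom.mem_ker]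
  exact h2 g

end General

/-! ### The ring -/

/-- The polynomial ring over the integers in countably many indeterminates. -/
abbrev Rg := MvPolynomial ℕ ℤ

/-- The homomorphism onto the rationals with `X m ↦ 1 / (m + 1)`. -/
noncomputable def ev : Rg →+* ℚ :=
  MvPolynomial.eval₂Hom (Int.castRingHom ℚ) (fun m => 1 / ((m : ℚ) + 1))

/-- The ideal. -/
noncomputable def Id : Ideal Rg := RingHom.ker ev

theorem exists_r (m : ℕ) (hm : 0 < m) : ∃ r : Rg, 1 - m * r ∈ Id := by
  refine ⟨MvPolynomial.X (m - 1), ?_⟩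
  unfold Id
  rw [RingHom.mem_ker, map_sub, map_mul, map_one, map_natCast]
  unfold ev
  rw [MvPolynomial.coe_eval₂Hom, MvPolynomial.eval₂_X]
  have : ((m - 1 : ℕ) : ℚ) + 1 = m := by
    rw [Nat.cast_sub hm]; simp
  rw [this]
  have hm' : (m : ℚ) ≠ 0 := by positivity
  field_simp
  simp

/-- The restriction to a line through the rational point. -/
noncomputable def line (c : ℕ → ℚ) : Rg →+* Polynomial ℚ :=
  MvPolynomial.eval₂Hom (Int.castRingHom (Polynomial ℚ))
    (fun m => Polynomial.C (1 / ((m : ℚ) + 1)) + Polynomial.C (c m) * Polynomial.X)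

theorem line_mem (c : ℕ → ℚ) {a : Rg} (ha : a ∈ Id) : Polynomial.X ∣ line c a := by
  rw [Polynomial.X_dvd_iff, Polynomial.coeff_zero_eq_eval_zero]
  have h1 : (Polynomial.evalRingHom (0 : ℚ)).comp (line c) = ev := by
    apply MvPolynomial.ringHom_ext
    · intro r
      simp
    · intro i
      simp [line, ev]
  have h2 : ev a = 0 := ha
  rw [← h1] at h2
  exact h2

theorem line_pow (c : ℕ → ℚ) (n : ℕ) : ∀ a ∈ Id ^ n, Polynomial.X ^ n ∣ line c a := by
  induction n with
  | zero => intro a _; simp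
  | succ n ih =>
    intro a ha
    rw [pow_succ] at ha
    induction ha using Submodule.mul_induction_on' with
    | mem_mul_mem x hx y hy =>
      rw [map_mul, pow_succ]
      exact mul_dvd_mul (ih x hx) (line_mem c hy)
    | add x _ y _ hx hy =>
      rw [map_add]
      exact dvd_add hx hy

theorem inter_zero (a : Rg) (ha : ∀ n, a ∈ Id ^ n) : a = 0 := by
  have h1 : ∀ c, line c a = 0 := by
    intro c
    by_contra hne
    have h2 := line_pow c ((line c a).natDegree + 1) a (ha _)
    have h3 := Polynomial.natDegree_le_of_dvd h2 hne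
    rw [Polynomial.natDegree_X_pow] at h3
    omega
  have h2 : MvPolynomial.map (Int.castRingHom ℚ) a = 0 := by
    apply MvPolynomial.funext
    intro y
    have h3 := congrArg (Polynomial.evalRingHom (1 : ℚ)) (h1 (fun m => y m - 1 / ((m : ℚ) + 1)))
    have h4 : (Polynomial.evalRingHom (1 : ℚ)).comp (line (fun m => y m - 1 / ((m : ℚ) + 1))) =
        (MvPolynomial.eval y).comp (MvPolynomial.map (Int.castRingHom ℚ)) := by
      apply MvPolynomial.ringHom_ext
      · intro r
        simp
      · intro i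
        simp [line]
    have h5 := congrArg (fun f : Rg →+* ℚ => f a) h4
    simp only [RingHom.comp_apply] at h5
    rw [h3, map_zero] at h5
    rw [map_zero]
    exact h5.symm
  have hinj := MvPolynomial.map_injective (σ := ℕ) (Int.castRingHom ℚ) Int.cast_injective
  exact hinj (by rw [h2, map_zero])

theorem resfin (a : Rg) (ha : a ≠ 0) : ∃ (F : Type) (_ : CommRing F) (_ : Finite F)
    (f : Rg →+* F), f a ≠ 0 := by
  have h1 : ∃ y : ℕ → ℤ, MvPolynomial.eval y a ≠ 0 := by
    by_contra hn
    push Not at hn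
    apply ha
    apply MvPolynomial.funext
    intro y
    rw [hn y, map_zero]
  obtain ⟨y, hy⟩ := h1
  set m := MvPolynomial.eval y a with hm
  have : NeZero (m.natAbs + 1) := ⟨by omega⟩
  refine ⟨ZMod (m.natAbs + 1), inferInstance, inferInstance,
    (Int.castRingHom (ZMod (m.natAbs + 1))).comp (MvPolynomial.eval y), ?_⟩
  rw [RingHom.comp_apply, ← hm]
  intro h2
  rw [eq_intCast, ZMod.intCast_zmod_eq_zero_iff_dvd, Int.natCast_dvd] at h2
  have h3 := Nat.le_of_dvd (Int.natAbs_pos.2 hy) h2
  omega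

/-- There is a countable group which is residually finite and residually soluble, and all of whose
finite soluble quotients are trivial; it is not residually finite-soluble. -/
theorem result : ∃ (Γ : Type) (_ : Group Γ), Countable Γ ∧ ResiduallyFinite Γ ∧
    ResiduallySoluble Γ ∧ ¬ ResiduallyFiniteSoluble Γ ∧
    ∀ N : Subgroup Γ, ∀ _ : N.Normal, Finite (Γ ⧸ N) → Group.IsSolvable (Γ ⧸ N) → N = ⊤ := by
  have hno : ∀ N : Subgroup (Gam Id), ∀ _ : N.Normal, Finite (Gam Id ⧸ N) →
      Group.IsSolvable (Gam Id ⧸ N) → N = ⊤ := by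
    intro N _ _ _
    exact no_soluble Id exists_r N
  refine ⟨Gam Id, inferInstance, ?_, residuallyFinite Id resfin, residuallySoluble Id inter_zero,
    ?_, hno⟩
  · have h0 : Countable Rg := by
      rw [← Cardinal.mk_le_aleph0_iff]
      refine (MvPolynomial.cardinalMk_le_max).trans ?_
      simp
    have h1 : Countable (Matrix (Fin 3) (Fin 3) Rg) :=
      inferInstanceAs (Countable (Fin 3 → Fin 3 → Rg))
    have : Countable (SpecialLinearGroup (Fin 3) Rg) := Subtype.countable
    infer_instance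
  · intro hr
    have hmem : (1 : Rg) - MvPolynomial.X 0 ∈ Id := by
      unfold Id ev
      rw [RingHom.mem_ker]
      simp
    obtain ⟨N, hN, hg, h1, h2⟩ := hr ⟨e 0 1 (by decide) (1 - MvPolynomial.X 0), e_mem Id _ hmem⟩
      (by
        intro h
        have h3 := congrArg (fun g : Gam Id => mt g.1 0 1) h
        have h4 : (1 : Rg) - MvPolynomial.X 0 = 0 := by
          have h6 : transvection 0 1 ((1 : Rg) - MvPolynomial.X 0) 0 1 =
            (1 : Matrix (Fin 3) (Fin 3) Rg) 0 1 := h3
          simpa [Matrix.transvection] using h6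
        have h5 := congrArg (MvPolynomial.eval (fun _ => (0 : ℤ))) h4
        simp at h5)
    rw [hno N hN h1 h2] at hg
    exact hg (Subgroup.mem_top _)

end Pool.Agent.Results.MP_92b5af_al.NotResiduallyFiniteSoluble
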